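import Mathlib
import Pool.Agent.R143.MonoPath

set_option autoImplicit false

/-!
# A grid with a hierarchical perturbation

The points `z + e(z) (1, N + 1)`, `z` in the `N × N` grid, where the sizes `e(z)` of the
perturbations are tiny and increase very fast along the lexicographic order.
-/

namespace Pool.Agent.J6H33.Mono

open Pool.Agent.R143.MonoPath

/-- Rank of a grid point. -/
def rk (N : ℕ) (z : ℕ × ℕ) : ℕ := z.1 * N + z.2

/-- The base. -/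
noncomputable def B (N : ℕ) : ℝ := 64 * ((N : ℝ) + 2) ^ 4

/-- Size of the perturbation of a grid point. -/
noncomputable def e (N : ℕ) (z : ℕ × ℕ) : ℝ := B N ^ rk N z / B N ^ (N * N + 1)

/-- The perturbed grid point. -/
noncomputable def f (N : ℕ) (z : ℕ × ℕ) : Plane :=
  !₂[(z.1 : ℝ) + e N z, (z.2 : ℝ) + ((N : ℝ) + 1) * e N z]

/-- The `N × N` grid. -/
def Box (N : ℕ) : Finset (ℕ × ℕ) := Finset.range N ×ˢ Finset.range N

theorem mem_Box {N : ℕ} {z : ℕ × ℕ} : z ∈ Box N ↔ z.1 < N ∧ z.2 < N := by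
  simp [Box]

theorem card_Box (N : ℕ) : (Box N).card = N * N := by simp [Box]

@[simp] theorem f_zero (N : ℕ) (z : ℕ × ℕ) : (f N z) 0 = (z.1 : ℝ) + e N z := by simp [f]
@[simp] theorem f_one (N : ℕ) (z : ℕ × ℕ) : (f N z) 1 = (z.2 : ℝ) + ((N : ℝ) + 1) * e N z := by
  simp [f]

theorem B_ge (N : ℕ) : 64 * ((N : ℝ) + 2) ^ 3 ≤ B N ∧ 64 * ((N : ℝ) + 2) ^ 2 ≤ B N ∧
    64 * ((N : ℝ) + 2) ≤ B N ∧ 64 ≤ B N := by
  have h : (1 : ℝ) ≤ (N : ℝ) + 2 := by have : (0 : ℝ) ≤ N := Nat.cast_nonneg _; linarith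
  unfold B
  have h1 : (1 : ℝ) ≤ ((N : ℝ) + 2) ^ 2 := one_le_pow₀ h
  have h3 : (1 : ℝ) ≤ ((N : ℝ) + 2) ^ 3 := one_le_pow₀ h
  have h4 : (1 : ℝ) ≤ ((N : ℝ) + 2) ^ 4 := one_le_pow₀ h
  refine ⟨?_, ?_, ?_, ?_⟩
  · nlinarith [pow_le_pow_right₀ h (show 3 ≤ 4 by norm_num)]
  · nlinarith [pow_le_pow_right₀ h (show 2 ≤ 4 by norm_num)]
  · nlinarith [pow_le_pow_right₀ h (show 1 ≤ 4 by norm_num)]
  · nlinarith

theorem B_pos (N : ℕ) : 0 < B N := by have := (B_ge N).2.2.2; linarith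

theorem e_pos (N : ℕ) (z : ℕ × ℕ) : 0 < e N z := by
  unfold e; have := B_pos N; positivity

theorem rk_lt {N : ℕ} {z : ℕ × ℕ} (hz : z ∈ Box N) : rk N z < N * N := by
  rw [mem_Box] at hz
  unfold rk
  have : z.1 + 1 ≤ N := hz.1
  nlinarith [Nat.mul_le_mul_right N this]

theorem e_le {N : ℕ} {z : ℕ × ℕ} (hz : z ∈ Box N) : e N z ≤ 1 / B N := by
  have hB := B_pos N
  have h1 : (1 : ℝ) ≤ B N := by have := (B_ge N).2.2.2; linarith
  unfold e
  rw [div_le_div_iff₀ (by positivity) hB, one_mul, ← pow_succ]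
  exact pow_le_pow_right₀ h1 (by have := rk_lt hz; omega)

theorem e_step {N : ℕ} {z z' : ℕ × ℕ} (h : rk N z < rk N z') : B N * e N z ≤ e N z' := by
  have hB := B_pos N
  have h1 : (1 : ℝ) ≤ B N := by have := (B_ge N).2.2.2; linarith
  unfold e
  rw [← mul_div_assoc, ← pow_succ']
  exact div_le_div_of_nonneg_right (pow_le_pow_right₀ h1 h) (by positivity)

theorem rk_inj {N : ℕ} {z z' : ℕ × ℕ} (hz : z ∈ Box N) (hz' : z' ∈ Box N)
    (h : rk N z = rk N z') : z = z' := by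
  rw [mem_Box] at hz hz'
  unfold rk at h
  have h1 : z.1 = z'.1 := by
    rcases lt_trichotomy z.1 z'.1 with h2 | h2 | h2
    · exfalso
      have : (z.1 + 1) * N ≤ z'.1 * N := Nat.mul_le_mul_right N h2
      nlinarith
    · exact h2
    · exfalso
      have : (z'.1 + 1) * N ≤ z.1 * N := Nat.mul_le_mul_right N h2
      nlinarith
  rw [h1] at h
  exact Prod.ext h1 (by omega)

/-- Coordinates of a perturbation are small. -/
theorem small {N : ℕ} {z : ℕ × ℕ} (hz : z ∈ Box N) :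
    ((N : ℝ) + 1) * e N z ≤ 1 / (64 * ((N : ℝ) + 2) ^ 2) ∧
      e N z ≤ 1 / (64 * ((N : ℝ) + 2) ^ 3) := by
  have h := e_le hz
  have hN : (0 : ℝ) ≤ N := Nat.cast_nonneg _
  have hB : B N = 64 * ((N : ℝ) + 2) ^ 4 := rfl
  rw [hB] at h
  have h2 : (0 : ℝ) < (N : ℝ) + 2 := by linarith
  have h3 : e N z * (64 * ((N : ℝ) + 2) ^ 4) ≤ 1 := by
    rwa [le_div_iff₀ (by positivity)] at h
  have he := e_pos N z
  constructor
  · rw [le_div_iff₀ (by positivity)]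
    have : ((N : ℝ) + 1) * e N z * (64 * ((N : ℝ) + 2) ^ 2) ≤
        e N z * (64 * ((N : ℝ) + 2) ^ 4) := by
      have h4 : ((N : ℝ) + 1) * ((N : ℝ) + 2) ^ 2 ≤ ((N : ℝ) + 2) ^ 4 := by
        have : ((N : ℝ) + 1) ≤ ((N : ℝ) + 2) ^ 2 := by nlinarith
        nlinarith [sq_nonneg ((N : ℝ) + 2), mul_le_mul_of_nonneg_right this (sq_nonneg ((N : ℝ) + 2))]
      nlinarith
    linarith
  · rw [le_div_iff₀ (by positivity)]
    have : e N z * (64 * ((N : ℝ) + 2) ^ 3) ≤ e N z * (64 * ((N : ℝ) + 2) ^ 4) := by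
      have h4 : ((N : ℝ) + 2) ^ 3 ≤ ((N : ℝ) + 2) ^ 4 :=
        pow_le_pow_right₀ (by linarith) (by norm_num)
      nlinarith
    linarith

/-- Coordinates of a perturbation are small, simple form. -/
theorem small' {N : ℕ} {z : ℕ × ℕ} (hz : z ∈ Box N) :
    ((N : ℝ) + 1) * e N z ≤ 1 / 64 ∧ e N z ≤ 1 / 64 := by
  have h := small hz
  have hN : (0 : ℝ) ≤ N := Nat.cast_nonneg _
  have h1 : (1 : ℝ) ≤ ((N : ℝ) + 2) ^ 2 := one_le_pow₀ (by linarith)
  have h3 : (1 : ℝ) ≤ ((N : ℝ) + 2) ^ 3 := one_le_pow₀ (by linarith)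
  constructor
  · refine h.1.trans ?_
    apply one_div_le_one_div_of_le (by norm_num)
    linarith
  · refine h.2.trans ?_
    apply one_div_le_one_div_of_le (by norm_num)
    linarith

theorem dist_le {N : ℕ} {z z' : ℕ × ℕ} (hz : z ∈ Box N) (hz' : z' ∈ Box N) :
    dist (f N z) (f N z') ≤ 2 * N := by
  have hN : (0 : ℝ) ≤ N := Nat.cast_nonneg _
  have h1 := small' hz
  have h2 := small' hz'
  have p1 := e_pos N z
  have p2 := e_pos N z'
  rw [mem_Box] at hz hz'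
  have a1 : (z.1 : ℝ) + 1 ≤ N := by exact_mod_cast hz.1
  have a2 : (z.2 : ℝ) + 1 ≤ N := by exact_mod_cast hz.2
  have a3 : (z'.1 : ℝ) + 1 ≤ N := by exact_mod_cast hz'.1
  have a4 : (z'.2 : ℝ) + 1 ≤ N := by exact_mod_cast hz'.2
  have b1 : (0 : ℝ) ≤ z.1 := Nat.cast_nonneg _
  have b2 : (0 : ℝ) ≤ z.2 := Nat.cast_nonneg _
  have b3 : (0 : ℝ) ≤ z'.1 := Nat.cast_nonneg _
  have b4 : (0 : ℝ) ≤ z'.2 := Nat.cast_nonneg _
  have q1 : 0 ≤ ((N : ℝ) + 1) * e N z := by positivity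
  have q2 : 0 ≤ ((N : ℝ) + 1) * e N z' := by positivity
  rw [EuclideanSpace.dist_eq]
  apply Real.sqrt_le_iff.mpr
  refine ⟨by positivity, ?_⟩
  rw [Fin.sum_univ_two, Real.dist_eq, Real.dist_eq, sq_abs, sq_abs, f_zero, f_zero, f_one, f_one]
  have c1 : |(z.1 : ℝ) + e N z - (z'.1 + e N z')| ≤ N := by
    rw [abs_le]; constructor <;> linarith
  have c2 : |(z.2 : ℝ) + ((N : ℝ) + 1) * e N z - (z'.2 + ((N : ℝ) + 1) * e N z')| ≤ N := by
    rw [abs_le]; constructor <;> linarith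
  have d1 := sq_le_sq' (abs_le.mp c1).1 (abs_le.mp c1).2
  have d2 := sq_le_sq' (abs_le.mp c2).1 (abs_le.mp c2).2
  nlinarith

theorem dist_ge {N : ℕ} {z z' : ℕ × ℕ} (hz : z ∈ Box N) (hz' : z' ∈ Box N) (hne : z ≠ z') :
    1 / 2 ≤ dist (f N z) (f N z') := by
  have h1 := small' hz
  have h2 := small' hz'
  have p1 := e_pos N z
  have p2 := e_pos N z'
  have hN : (0 : ℝ) ≤ N := Nat.cast_nonneg _
  have q1 : 0 ≤ ((N : ℝ) + 1) * e N z := by positivity
  have q2 : 0 ≤ ((N : ℝ) + 1) * e N z' := by positivity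
  rw [EuclideanSpace.dist_eq]
  apply Real.le_sqrt_of_sq_le
  rw [Fin.sum_univ_two, Real.dist_eq, Real.dist_eq, sq_abs, sq_abs, f_zero, f_zero, f_one, f_one]
  have hor : z.1 ≠ z'.1 ∨ z.2 ≠ z'.2 := by
    by_contra hcon
    push Not at hcon
    exact hne (Prod.ext hcon.1 hcon.2)
  rcases hor with hx | hx
  · have : (1 : ℝ) / 2 ≤ |(z.1 : ℝ) + e N z - (z'.1 + e N z')| := by
      rcases lt_or_gt_of_ne hx with h | h
      · have h' : (z.1 : ℝ) + 1 ≤ z'.1 := by exact_mod_cast h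
        rw [le_abs]; right; linarith
      · have h' : (z'.1 : ℝ) + 1 ≤ z.1 := by exact_mod_cast h
        rw [le_abs]; left; linarith
    nlinarith [sq_abs ((z.1 : ℝ) + e N z - (z'.1 + e N z')),
      sq_nonneg ((z.2 : ℝ) + ((N : ℝ) + 1) * e N z - (z'.2 + ((N : ℝ) + 1) * e N z'))]
  · have : (1 : ℝ) / 2 ≤ |(z.2 : ℝ) + ((N : ℝ) + 1) * e N z - (z'.2 + ((N : ℝ) + 1) * e N z')| := by
      rcases lt_or_gt_of_ne hx with h | h
      · have h' : (z.2 : ℝ) + 1 ≤ z'.2 := by exact_mod_cast h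
        rw [le_abs]; right; linarith
      · have h' : (z'.2 : ℝ) + 1 ≤ z.2 := by exact_mod_cast h
        rw [le_abs]; left; linarith
    nlinarith [sq_abs ((z.2 : ℝ) + ((N : ℝ) + 1) * e N z - (z'.2 + ((N : ℝ) + 1) * e N z')),
      sq_nonneg ((z.1 : ℝ) + e N z - (z'.1 + e N z'))]

theorem f_inj {N : ℕ} {z z' : ℕ × ℕ} (hz : z ∈ Box N) (hz' : z' ∈ Box N)
    (h : f N z = f N z') : z = z' := by
  by_contra hne
  have := dist_ge hz hz' hne
  rw [h, dist_self] at this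
  norm_num at this

/-- A combination of three perturbations with the largest one dominating. -/
theorem dom {b em ei ej cm ci cj K : ℝ} (hem : 0 < em) (hei : 0 < ei) (hej : 0 < ej)
    (h1 : b * ei ≤ em) (h2 : b * ej ≤ em) (hcm : 1 ≤ |cm|) (hci : |ci| ≤ K) (hcj : |cj| ≤ K)
    (hK : 2 * K < b) : cm * em + ci * ei + cj * ej ≠ 0 := by
  intro h0
  have hK0 : 0 ≤ K := le_trans (abs_nonneg _) hci
  have e1 : |cm * em| = |ci * ei + cj * ej| := by
    have : cm * em = -(ci * ei + cj * ej) := by linarith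
    rw [this, abs_neg]
  have e2 : |ci * ei + cj * ej| ≤ K * ei + K * ej := by
    refine (abs_add_le _ _).trans ?_
    rw [abs_mul, abs_mul, abs_of_pos hei, abs_of_pos hej]
    exact add_le_add (mul_le_mul_of_nonneg_right hci hei.le)
      (mul_le_mul_of_nonneg_right hcj hej.le)
  have e3 : em ≤ |cm * em| := by
    rw [abs_mul, abs_of_pos hem]
    nlinarith
  have hb : 0 < b := by linarith
  have e4 : b * (K * ei + K * ej) ≤ 2 * K * em := by nlinarith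
  have e5 : em ≤ K * ei + K * ej := by linarith
  nlinarith

theorem lin_bound {n X Y : ℝ} (hn : 0 ≤ n) (hX : |X| ≤ n) (hY : |Y| ≤ n) :
    |(n + 1) * X - Y| ≤ (n + 2) ^ 2 := by
  have h1 : |(n + 1) * X - Y| ≤ (n + 1) * |X| + |Y| := by
    refine (abs_sub _ _).trans ?_
    rw [abs_mul, abs_of_nonneg (by linarith : (0 : ℝ) ≤ n + 1)]
  have h2 : (n + 1) * |X| ≤ (n + 1) * n := mul_le_mul_of_nonneg_left hX (by linarith)
  nlinarith

theorem generalPosition {N : ℕ} {S : Finset (ℕ × ℕ)} (hS : S ⊆ Box N) :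
    GeneralPosition (S.image (f N)) := by
  classical
  intro a ha b hb c hc hab hbc hac hcol
  rw [Finset.mem_image] at ha hb hc
  obtain ⟨z1, hz1, rfl⟩ := ha
  obtain ⟨z2, hz2, rfl⟩ := hb
  obtain ⟨z3, hz3, rfl⟩ := hc
  have m1 := hS hz1
  have m2 := hS hz2
  have m3 := hS hz3
  have n12 : z1 ≠ z2 := fun h => hab (by rw [h])
  have n23 : z2 ≠ z3 := fun h => hbc (by rw [h])
  have n13 : z1 ≠ z3 := fun h => hac (by rw [h])
  rw [collinear_iff_of_mem (p₀ := f N z1) (by simp)] at hcol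
  obtain ⟨v, hv⟩ := hcol
  obtain ⟨r2, hr2⟩ := hv (f N z2) (by simp)
  obtain ⟨r3, hr3⟩ := hv (f N z3) (by simp)
  have x2 : (f N z2) 0 - (f N z1) 0 = r2 * v 0 := by rw [hr2]; simp
  have y2 : (f N z2) 1 - (f N z1) 1 = r2 * v 1 := by rw [hr2]; simp
  have x3 : (f N z3) 0 - (f N z1) 0 = r3 * v 0 := by rw [hr3]; simp
  have y3 : (f N z3) 1 - (f N z1) 1 = r3 * v 1 := by rw [hr3]; simp
  have hdet : ((f N z2) 0 - (f N z1) 0) * ((f N z3) 1 - (f N z1) 1) -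
      ((f N z2) 1 - (f N z1) 1) * ((f N z3) 0 - (f N z1) 0) = 0 := by
    rw [x2, y2, x3, y3]; ring
  simp only [f_zero, f_one] at hdet
  have s1 := small m1
  have s2 := small m2
  have s3 := small m3
  have p1 := e_pos N z1
  have p2 := e_pos N z2
  have p3 := e_pos N z3
  have hN : (0 : ℝ) ≤ N := Nat.cast_nonneg _
  have k1 := mem_Box.mp m1
  have k2 := mem_Box.mp m2
  have k3 := mem_Box.mp m3
  -- integer data
  obtain ⟨X2, hX2⟩ : ∃ X2 : ℤ, X2 = (z2.1 : ℤ) - z1.1 := ⟨_, rfl⟩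
  obtain ⟨Y2, hY2⟩ : ∃ Y2 : ℤ, Y2 = (z2.2 : ℤ) - z1.2 := ⟨_, rfl⟩
  obtain ⟨X3, hX3⟩ : ∃ X3 : ℤ, X3 = (z3.1 : ℤ) - z1.1 := ⟨_, rfl⟩
  obtain ⟨Y3, hY3⟩ : ∃ Y3 : ℤ, Y3 = (z3.2 : ℤ) - z1.2 := ⟨_, rfl⟩
  have rX2 : (z2.1 : ℝ) = z1.1 + X2 := by rw [hX2]; push_cast; ring
  have rY2 : (z2.2 : ℝ) = z1.2 + Y2 := by rw [hY2]; push_cast; ring
  have rX3 : (z3.1 : ℝ) = z1.1 + X3 := by rw [hX3]; push_cast; ring
  have rY3 : (z3.2 : ℝ) = z1.2 + Y3 := by rw [hY3]; push_cast; ring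
  rw [rX2, rY2, rX3, rY3] at hdet
  obtain ⟨W2, hW2⟩ : ∃ W2 : ℤ, W2 = ((N : ℤ) + 1) * X2 - Y2 := ⟨_, rfl⟩
  obtain ⟨W3, hW3⟩ : ∃ W3 : ℤ, W3 = ((N : ℤ) + 1) * X3 - Y3 := ⟨_, rfl⟩
  have hne : ∀ X Y : ℤ, |X| ≤ N → |Y| ≤ N → (X ≠ 0 ∨ Y ≠ 0) → ((N : ℤ) + 1) * X - Y ≠ 0 := by
    intro X Y hX hY hor h0
    have h1 : Y = ((N : ℤ) + 1) * X := by linarith
    by_cases hX0 : X = 0
    · subst hX0
      rw [mul_zero] at h1
      tauto
    · have : 1 ≤ |X| := Int.one_le_abs hX0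
      rw [h1, abs_mul, abs_of_nonneg (by positivity)] at hY
      nlinarith
  have key : ((X2 * Y3 - Y2 * X3 : ℤ) : ℝ) + (((W3 - W2 : ℤ) : ℝ) * e N z1 +
      (-(W3 : ℝ)) * e N z2 + (W2 : ℝ) * e N z3) = 0 := by
    rw [hW2, hW3]
    push_cast
    linarith
  have bW2 : |(W2 : ℝ)| ≤ (N + 2) ^ 2 := by
    have h1 : |(X2 : ℝ)| ≤ N := by
      rw [abs_le]; constructor <;> (rw [hX2]; push_cast)
      · have : (z1.1 : ℝ) ≤ N := by exact_mod_cast k1.1.le
        have : (0 : ℝ) ≤ z2.1 := Nat.cast_nonneg _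
        linarith
      · have : (z2.1 : ℝ) ≤ N := by exact_mod_cast k2.1.le
        have : (0 : ℝ) ≤ z1.1 := Nat.cast_nonneg _
        linarith
    have h2 : |(Y2 : ℝ)| ≤ N := by
      rw [abs_le]; constructor <;> (rw [hY2]; push_cast)
      · have : (z1.2 : ℝ) ≤ N := by exact_mod_cast k1.2.le
        have : (0 : ℝ) ≤ z2.2 := Nat.cast_nonneg _
        linarith
      · have : (z2.2 : ℝ) ≤ N := by exact_mod_cast k2.2.le
        have : (0 : ℝ) ≤ z1.2 := Nat.cast_nonneg _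
        linarith
    rw [hW2]; push_cast
    exact lin_bound hN h1 h2
  have bW3 : |(W3 : ℝ)| ≤ (N + 2) ^ 2 := by
    have h1 : |(X3 : ℝ)| ≤ N := by
      rw [abs_le]; constructor <;> (rw [hX3]; push_cast)
      · have : (z1.1 : ℝ) ≤ N := by exact_mod_cast k1.1.le
        have : (0 : ℝ) ≤ z3.1 := Nat.cast_nonneg _
        linarith
      · have : (z3.1 : ℝ) ≤ N := by exact_mod_cast k3.1.le
        have : (0 : ℝ) ≤ z1.1 := Nat.cast_nonneg _
        linarith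
    have h2 : |(Y3 : ℝ)| ≤ N := by
      rw [abs_le]; constructor <;> (rw [hY3]; push_cast)
      · have : (z1.2 : ℝ) ≤ N := by exact_mod_cast k1.2.le
        have : (0 : ℝ) ≤ z3.2 := Nat.cast_nonneg _
        linarith
      · have : (z3.2 : ℝ) ≤ N := by exact_mod_cast k3.2.le
        have : (0 : ℝ) ≤ z1.2 := Nat.cast_nonneg _
        linarith
    rw [hW3]; push_cast
    exact lin_bound hN h1 h2
  have bW32 : |((W3 - W2 : ℤ) : ℝ)| ≤ 2 * (N + 2) ^ 2 := by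
    push_cast
    refine (abs_sub _ _).trans ?_
    linarith
  by_cases hd0 : X2 * Y3 - Y2 * X3 = 0
  · -- collinear grid points
    rw [hd0] at key
    simp only [Int.cast_zero, zero_add] at key
    have aX2 : |X2| ≤ N := by rw [hX2, abs_le]; constructor <;> omega
    have aY2 : |Y2| ≤ N := by rw [hY2, abs_le]; constructor <;> omega
    have aX3 : |X3| ≤ N := by rw [hX3, abs_le]; constructor <;> omega
    have aY3 : |Y3| ≤ N := by rw [hY3, abs_le]; constructor <;> omega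
    have aX23 : |X3 - X2| ≤ N := by rw [hX3, hX2, abs_le]; constructor <;> omega
    have aY23 : |Y3 - Y2| ≤ N := by rw [hY3, hY2, abs_le]; constructor <;> omega
    have w2 : W2 ≠ 0 := by
      rw [hW2]
      apply hne _ _ aX2 aY2
      by_contra hcon
      push Not at hcon
      exact n12 (Prod.ext (by omega) (by omega))
    have w3 : W3 ≠ 0 := by
      rw [hW3]
      apply hne _ _ aX3 aY3
      by_contra hcon
      push Not at hcon
      exact n13 (Prod.ext (by omega) (by omega))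
    have w32 : W3 - W2 ≠ 0 := by
      have : W3 - W2 = ((N : ℤ) + 1) * (X3 - X2) - (Y3 - Y2) := by rw [hW2, hW3]; ring
      rw [this]
      apply hne _ _ aX23 aY23
      by_contra hcon
      push Not at hcon
      exact n23 (Prod.ext (by omega) (by omega))
    have v2 : 1 ≤ |(W2 : ℝ)| := by
      rw [← Int.cast_abs]; exact_mod_cast Int.one_le_abs w2
    have v3 : 1 ≤ |(-(W3 : ℝ))| := by
      rw [abs_neg, ← Int.cast_abs]; exact_mod_cast Int.one_le_abs w3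
    have v32 : 1 ≤ |((W3 - W2 : ℤ) : ℝ)| := by
      rw [← Int.cast_abs]; exact_mod_cast Int.one_le_abs w32
    have r12 : rk N z1 ≠ rk N z2 := fun h => n12 (rk_inj m1 m2 h)
    have r23 : rk N z2 ≠ rk N z3 := fun h => n23 (rk_inj m2 m3 h)
    have r13 : rk N z1 ≠ rk N z3 := fun h => n13 (rk_inj m1 m3 h)
    have hBK : 2 * (2 * ((N : ℝ) + 2) ^ 2) < B N := by
      have := (B_ge N).2.1
      have h5 : (0 : ℝ) < ((N : ℝ) + 2) ^ 2 := by positivity
      linarith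
    have bW3' : |(-(W3 : ℝ))| ≤ 2 * (N + 2) ^ 2 := by rw [abs_neg]; nlinarith [sq_nonneg ((N : ℝ) + 2)]
    have bW2' : |(W2 : ℝ)| ≤ 2 * (N + 2) ^ 2 := by nlinarith [sq_nonneg ((N : ℝ) + 2)]
    rcases lt_or_gt_of_ne r12 with h12 | h12
    · rcases lt_or_gt_of_ne r23 with h23 | h23
      · apply dom p3 p1 p2 (e_step (h12.trans h23)) (e_step h23) v2 bW32 bW3' hBK
        linarith
      · apply dom p2 p1 p3 (e_step h12) (e_step h23) v3 bW32 bW2' hBK
        linarith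
    · rcases lt_or_gt_of_ne r13 with h13 | h13
      · apply dom p3 p1 p2 (e_step h13) (e_step (h12.trans h13)) v2 bW32 bW3' hBK
        linarith
      · apply dom p1 p2 p3 (e_step h12) (e_step h13) v32 bW3' bW2' hBK
        linarith
  · -- grid points not collinear
    have g1 : (1 : ℝ) ≤ |((X2 * Y3 - Y2 * X3 : ℤ) : ℝ)| := by
      rw [← Int.cast_abs]; exact_mod_cast Int.one_le_abs hd0
    have g2 : |((W3 - W2 : ℤ) : ℝ) * e N z1 + (-(W3 : ℝ)) * e N z2 + (W2 : ℝ) * e N z3| < 1 := by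
      have t1 : |((W3 - W2 : ℤ) : ℝ) * e N z1| ≤ 2 * (N + 2) ^ 2 * (1 / (64 * ((N : ℝ) + 2) ^ 3)) := by
        rw [abs_mul, abs_of_pos p1]
        exact mul_le_mul bW32 s1.2 p1.le (by positivity)
      have t2 : |(-(W3 : ℝ)) * e N z2| ≤ (N + 2) ^ 2 * (1 / (64 * ((N : ℝ) + 2) ^ 3)) := by
        rw [abs_mul, abs_of_pos p2, abs_neg]
        exact mul_le_mul bW3 s2.2 p2.le (by positivity)
      have t3 : |(W2 : ℝ) * e N z3| ≤ (N + 2) ^ 2 * (1 / (64 * ((N : ℝ) + 2) ^ 3)) := by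
        rw [abs_mul, abs_of_pos p3]
        exact mul_le_mul bW2 s3.2 p3.le (by positivity)
      have t4 : ((N : ℝ) + 2) ^ 2 * (1 / (64 * ((N : ℝ) + 2) ^ 3)) ≤ 1 / 64 := by
        have : ((N : ℝ) + 2) ^ 2 * (1 / (64 * ((N : ℝ) + 2) ^ 3)) = 1 / (64 * ((N : ℝ) + 2)) := by
          field_simp
        rw [this]
        apply one_div_le_one_div_of_le (by norm_num)
        linarith
      have := abs_add_three (((W3 - W2 : ℤ) : ℝ) * e N z1) ((-(W3 : ℝ)) * e N z2) ((W2 : ℝ) * e N z3)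
      linarith
    have g3 : |((X2 * Y3 - Y2 * X3 : ℤ) : ℝ)| = |((W3 - W2 : ℤ) : ℝ) * e N z1 +
        (-(W3 : ℝ)) * e N z2 + (W2 : ℝ) * e N z3| := by
      rw [eq_neg_of_add_eq_zero_left key, abs_neg]
    linarith

theorem isDense {N : ℕ} {S : Finset (ℕ × ℕ)} (hS : S ⊆ Box N) (hN : (N : ℝ) ≤ 2 * √(S.card : ℝ)) :
    IsDense 8 (S.image (f N)) := by
  classical
  intro a ha b hb c hc d hd hcd
  have hcard : (S.image (f N)).card = S.card := by
    apply Finset.card_image_of_injOn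
    intro z hz z' hz' h
    exact f_inj (hS hz) (hS hz') h
  rw [hcard]
  rw [Finset.mem_image] at ha hb hc hd
  obtain ⟨z1, hz1, rfl⟩ := ha
  obtain ⟨z2, hz2, rfl⟩ := hb
  obtain ⟨z3, hz3, rfl⟩ := hc
  obtain ⟨z4, hz4, rfl⟩ := hd
  have h1 := dist_le (hS hz1) (hS hz2)
  have h2 := dist_ge (hS hz3) (hS hz4) (fun h => hcd (by rw [h]))
  have h3 : 0 ≤ √(S.card : ℝ) := Real.sqrt_nonneg _
  nlinarith

end Pool.Agent.J6H33.Mono
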