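import Pool.Agent.J6H33.Mono.PathBound

set_option autoImplicit false

/-!
# The number of target edges, and the lower bound for monotone path covers
-/

namespace Pool.Agent.J6H33.Mono

open Pool.Agent.R143.MonoPath Finset

/-! ### An elementary sum over Euler's totient function -/

theorem sum_inv_sq_le (K : ℕ) : ∑ m ∈ Icc 1 K, ((m : ℝ) ^ 2)⁻¹ ≤ 2 := by
  have h := sum_Ioo_inv_sq_le (α := ℝ) 0 (K + 1)
  have h1 : Ioo 0 (K + 1) = Icc 1 K := by
    ext x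
    simp only [mem_Ioo, mem_Icc]
    omega
  rw [h1] at h
  refine h.trans ?_
  norm_num

theorem harmonic_eq (K : ℕ) : (harmonic K : ℝ) = ∑ a ∈ Icc 1 K, ((a : ℝ))⁻¹ := by
  rw [harmonic_eq_sum_Icc]
  push_cast
  rfl

/-- `Σ_{p ≤ D} φ(p) / p² ≥ (1/2) log (D + 1)`. -/
theorem totient_sum (D : ℕ) :
    Real.log (D + 1) ≤ 2 * ∑ p ∈ Icc 1 D, (Nat.totient p : ℝ) * ((p : ℝ) ^ 2)⁻¹ := by
  have h0 : Real.log (D + 1) ≤ (harmonic D : ℝ) := by
    have := log_add_one_le_harmonic D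
    push_cast at this
    exact this
  refine h0.trans ?_
  rw [harmonic_eq]
  have h1 : ∀ a ∈ Icc 1 D, ((a : ℝ))⁻¹ = ∑ d ∈ a.divisors, (Nat.totient d : ℝ) * ((a : ℝ) ^ 2)⁻¹ := by
    intro a ha
    rw [mem_Icc] at ha
    rw [← Finset.sum_mul]
    have h2 : (∑ d ∈ a.divisors, (Nat.totient d : ℝ)) = a := by
      exact_mod_cast Nat.sum_totient a
    rw [h2]
    have : (a : ℝ) ≠ 0 := by
      have : (0 : ℝ) < a := by exact_mod_cast ha.1
      exact this.ne'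
    field_simp
  rw [Finset.sum_congr rfl h1]
  have h2 : ∑ a ∈ Icc 1 D, ∑ d ∈ a.divisors, (Nat.totient d : ℝ) * ((a : ℝ) ^ 2)⁻¹ =
      ∑ d ∈ Icc 1 D, ∑ a ∈ (Icc 1 D).filter (fun a => d ∣ a),
        (Nat.totient d : ℝ) * ((a : ℝ) ^ 2)⁻¹ := by
    apply Finset.sum_comm'
    intro a d
    simp only [mem_Icc, Nat.mem_divisors, mem_filter]
    constructor
    · rintro ⟨⟨h1, h2⟩, h3, h4⟩
      have h5 := Nat.le_of_dvd (by omega) h3
      have h6 := Nat.pos_of_dvd_of_pos h3 (by omega)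
      exact ⟨⟨⟨h1, h2⟩, h3⟩, by omega, by omega⟩
    · rintro ⟨⟨⟨h1, h2⟩, h3⟩, h4, h5⟩
      exact ⟨⟨h1, h2⟩, h3, by omega⟩
  rw [h2, Finset.mul_sum]
  apply Finset.sum_le_sum
  intro d hd
  rw [mem_Icc] at hd
  rw [← Finset.mul_sum]
  have h3 : ∑ a ∈ (Icc 1 D).filter (fun a => d ∣ a), ((a : ℝ) ^ 2)⁻¹ ≤ 2 * ((d : ℝ) ^ 2)⁻¹ := by
    have h4 : (Icc 1 D).filter (fun a => d ∣ a) ⊆ (Icc 1 D).image (fun m => d * m) := by
      intro a ha
      rw [mem_filter, mem_Icc] at ha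
      obtain ⟨⟨ha1, ha2⟩, m, hm⟩ := ha
      rw [mem_image]
      refine ⟨m, ?_, hm.symm⟩
      rw [mem_Icc]
      constructor
      · rcases Nat.eq_zero_or_pos m with h | h
        · subst h; rw [mul_zero] at hm; omega
        · exact h
      · have : m ≤ d * m := Nat.le_mul_of_pos_left m (by omega)
        omega
    calc ∑ a ∈ (Icc 1 D).filter (fun a => d ∣ a), ((a : ℝ) ^ 2)⁻¹
        ≤ ∑ a ∈ (Icc 1 D).image (fun m => d * m), ((a : ℝ) ^ 2)⁻¹ :=
          Finset.sum_le_sum_of_subset_of_nonneg h4 (fun _ _ _ => by positivity)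
      _ = ∑ m ∈ Icc 1 D, (((d * m : ℕ) : ℝ) ^ 2)⁻¹ := by
          rw [Finset.sum_image]
          intro x _ y _ h
          exact Nat.eq_of_mul_eq_mul_left (by omega) h
      _ = ((d : ℝ) ^ 2)⁻¹ * ∑ m ∈ Icc 1 D, ((m : ℝ) ^ 2)⁻¹ := by
          rw [Finset.mul_sum]
          apply Finset.sum_congr rfl
          intro m _
          push_cast
          rw [mul_pow, mul_inv]
      _ ≤ ((d : ℝ) ^ 2)⁻¹ * 2 :=
          mul_le_mul_of_nonneg_left (sum_inv_sq_le D) (by positivity)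
      _ = 2 * ((d : ℝ) ^ 2)⁻¹ := by ring
  have h5 : (0 : ℝ) ≤ Nat.totient d := Nat.cast_nonneg _
  have := mul_le_mul_of_nonneg_left h3 h5
  linarith

/-! ### The target edges -/

/-- The target edges: primitive directions `(p, b)`, `1 ≤ b ≤ p ≤ D`, multiplicities `k` with
`k p ≤ h`, and left end points in the square of side `h`. -/
def T (h D : ℕ) : Finset Edge :=
  ((Icc 1 D ×ˢ Icc 1 D) ×ˢ (Icc 1 h ×ˢ Box h)).filter
    (fun τ => τ.1.2 ≤ τ.1.1 ∧ Nat.Coprime τ.1.1 τ.1.2 ∧ τ.2.1 * τ.1.1 ≤ h)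

theorem T_good {h D M N : ℕ} (hh : 2 * h ≤ M) (hMN : M ≤ N) {τ : Edge} (hτ : τ ∈ T h D) :
    Good N D τ ∧ τ.2.2 ∈ Box M ∧ zr τ ∈ Box M := by
  unfold T at hτ
  rw [mem_filter, mem_product, mem_product, mem_product, mem_Icc, mem_Icc, mem_Icc, mem_Box] at hτ
  obtain ⟨⟨⟨⟨a1, a2⟩, a3, a4⟩, ⟨a5, a6⟩, a7, a8⟩, a9, a10, a11⟩ := hτ
  have a12 : τ.2.1 * τ.1.2 ≤ h := (Nat.mul_le_mul_left _ a9).trans a11
  have b1 : τ.2.2 ∈ Box M := by rw [mem_Box]; constructor <;> omega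
  have b2 : zr τ ∈ Box M := by
    rw [mem_Box]; unfold zr; simp only; constructor <;> omega
  refine ⟨⟨a1, a3, a2, a4, a10, a5, ?_, ?_⟩, b1, b2⟩
  · rw [mem_Box] at b1 ⊢; constructor <;> omega
  · rw [mem_Box] at b2 ⊢; constructor <;> omega

theorem sum_k_ge {h p : ℕ} (hp : 1 ≤ p) (h2 : 2 * p ≤ h) :
    (h : ℝ) ^ 2 / 4 * ((p : ℝ) ^ 2)⁻¹ ≤ ((∑ k ∈ Icc 1 (h / p), k : ℕ) : ℝ) := by
  set K := h / p with hK
  have hK1 : p * K ≤ h := Nat.mul_div_le h p
  have hK2 : h < p * (K + 1) := by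
    rw [hK, mul_comm]
    have := Nat.lt_succ_iff.mp (Nat.lt_succ_of_le (Nat.div_add_mod h p).ge)
    have h3 := Nat.mod_lt h (by omega : 0 < p)
    have h4 := Nat.div_add_mod h p
    nlinarith
  have hsum : ((∑ k ∈ Icc 1 K, k : ℕ) : ℝ) = (K : ℝ) * (K + 1) / 2 := by
    have : ∀ K : ℕ, ((∑ k ∈ Icc 1 K, k : ℕ) : ℝ) = (K : ℝ) * (K + 1) / 2 := by
      intro K
      induction K with
      | zero => simp
      | succ K ih =>
        rw [Finset.sum_Icc_succ_top (by omega)]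
        push_cast at ih ⊢
        rw [ih]; ring
    exact this K
  rw [hsum]
  have hp' : (0 : ℝ) < p := by exact_mod_cast hp
  have e1 : (h : ℝ) ≤ p * (K + 1) := by exact_mod_cast hK2.le
  have e2 : (2 : ℝ) * p ≤ h := by exact_mod_cast h2
  have x1 : (h : ℝ) / p ≤ K + 1 := by rw [div_le_iff₀ hp']; linarith
  have x2 : (2 : ℝ) ≤ h / p := by rw [le_div_iff₀ hp']; linarith
  have e3 : (h : ℝ) ^ 2 / 4 * ((p : ℝ) ^ 2)⁻¹ = (h / p) ^ 2 / 4 := by
    field_simp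
  rw [e3]
  have x3 : (h : ℝ) / p / 2 ≤ K := by linarith
  have x4 : (h : ℝ) / p / 2 * (h / p) ≤ K * (K + 1) :=
    mul_le_mul x3 x1 (by linarith) (by linarith)
  nlinarith

theorem sum_T_ge {h D : ℕ} (hD : 2 * D ≤ h) :
    (h : ℝ) ^ 4 / 8 * Real.log (D + 1) ≤ ((∑ τ ∈ T h D, τ.2.1 : ℕ) : ℝ) := by
  -- rewrite the sum
  have h1 : ∑ τ ∈ T h D, τ.2.1 = ∑ p ∈ Icc 1 D, ∑ b ∈ Icc 1 D,
      if (b ≤ p ∧ Nat.Coprime p b) then (h * h) * ∑ k ∈ Icc 1 (h / p), k else 0 := by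
    unfold T
    rw [Finset.sum_filter, Finset.sum_product, Finset.sum_product]
    apply Finset.sum_congr rfl
    intro p hp
    rw [mem_Icc] at hp
    apply Finset.sum_congr rfl
    intro b _
    simp only
    split_ifs with hb
    · rw [Finset.sum_product]
      have h2 : ∀ k ∈ Icc 1 h, ∑ _z ∈ Box h, (if b ≤ p ∧ Nat.Coprime p b ∧ k * p ≤ h then k else 0) =
          if k * p ≤ h then (h * h) * k else 0 := by
        intro k _
        rw [Finset.sum_const, card_Box, smul_eq_mul]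
        by_cases hk : k * p ≤ h
        · rw [if_pos ⟨hb.1, hb.2, hk⟩, if_pos hk]
        · rw [if_neg (fun hc => hk hc.2.2), if_neg hk, mul_zero]
      rw [Finset.sum_congr rfl h2, ← Finset.sum_filter, ← Finset.mul_sum]
      congr 1
      apply Finset.sum_congr _ (fun _ _ => rfl)
      ext k
      rw [mem_filter, mem_Icc, mem_Icc, Nat.le_div_iff_mul_le (by omega)]
      constructor
      · rintro ⟨⟨a1, a2⟩, a3⟩; exact ⟨a1, a3⟩
      · rintro ⟨a1, a3⟩
        refine ⟨⟨a1, ?_⟩, a3⟩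
        exact (Nat.le_mul_of_pos_right k (by omega)).trans a3
    · apply Finset.sum_eq_zero
      intro x _
      rw [if_neg (fun hc => hb ⟨hc.1, hc.2.1⟩)]
  rw [h1]
  push_cast
  have h3 : ∀ p ∈ Icc 1 D, (h : ℝ) ^ 4 / 4 * ((Nat.totient p : ℝ) * ((p : ℝ) ^ 2)⁻¹) ≤
      ∑ b ∈ Icc 1 D, if (b ≤ p ∧ Nat.Coprime p b) then
        ((h : ℝ) * h) * ∑ k ∈ Icc 1 (h / p), (k : ℝ) else 0 := by
    intro p hp
    rw [mem_Icc] at hp
    rw [← Finset.sum_filter, Finset.sum_const, nsmul_eq_mul]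
    have hcard : (Nat.totient p : ℝ) ≤
        (((Icc 1 D).filter (fun b => b ≤ p ∧ Nat.Coprime p b)).card : ℝ) := by
      have : Nat.totient p ≤ ((Icc 1 D).filter (fun b => b ≤ p ∧ Nat.Coprime p b)).card := by
        rw [← Nat.filter_coprime_Ico_eq_totient p 1]
        apply Finset.card_le_card
        intro b hb
        rw [mem_filter, mem_Ico] at hb
        rw [mem_filter, mem_Icc]
        refine ⟨⟨hb.1.1, by omega⟩, by omega, hb.2⟩
      exact_mod_cast this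
    have hk := sum_k_ge (h := h) (p := p) hp.1 (by omega)
    push_cast at hk
    have hk0 : 0 ≤ (h : ℝ) ^ 2 / 4 * ((p : ℝ) ^ 2)⁻¹ := by positivity
    calc (h : ℝ) ^ 4 / 4 * ((Nat.totient p : ℝ) * ((p : ℝ) ^ 2)⁻¹) =
        (Nat.totient p : ℝ) * (((h : ℝ) * h) * ((h : ℝ) ^ 2 / 4 * ((p : ℝ) ^ 2)⁻¹)) := by ring
      _ ≤ _ := by
        apply mul_le_mul hcard _ (by positivity) (by positivity)
        exact mul_le_mul_of_nonneg_left hk (by positivity)
  refine le_trans ?_ (Finset.sum_le_sum h3)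
  rw [← Finset.mul_sum]
  have h4 := totient_sum D
  have h5 : (0 : ℝ) ≤ (h : ℝ) ^ 4 := by positivity
  nlinarith

/-! ### The lower bound for covers -/

theorem cover_ge {h D M N : ℕ} (hh : 2 * h ≤ M) (hMN : M ≤ N) (hN : 1 ≤ N) (hD : 4 * D ≤ N)
    {S : Finset (ℕ × ℕ)} (hS : S ⊆ Box N) (hMS : Box M ⊆ S) {k : ℕ}
    (hk : HasCover (S.image (f N)) k) : ∑ τ ∈ T h D, τ.2.1 ≤ k * (7 * (N * N)) := by
  classical
  obtain ⟨t, v, hv, hcov⟩ := hk
  -- every target edge lies on a path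
  have hex : ∀ τ ∈ T h D, ∃ s, IsEdge (v s) (f N τ.2.2) (f N (zr τ)) := by
    intro τ hτ
    obtain ⟨g, b1, b2⟩ := T_good hh hMN hτ
    apply hcov _ (mem_image_of_mem _ (hMS b1)) _ (mem_image_of_mem _ (hMS b2))
    intro heq
    have := f_inj g.2.2.2.2.2.2.1 g.2.2.2.2.2.2.2 heq
    have h2 := zl_lt_zr g
    rw [← this] at h2
    exact lt_irrefl _ h2
  -- every path
  have hpath : ∀ s, ∑ τ ∈ (T h D).filter (fun τ => IsEdge (v s) (f N τ.2.2) (f N (zr τ))),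
      τ.2.1 ≤ 7 * (N * N) := by
    intro s
    obtain ⟨hmem, u, hu, hmono⟩ := hv s
    apply path_sum_le (D := D) (t := t s) (u := u)
      (w := fun i => if hi : i < t s then v s ⟨i, hi⟩ else 0) hN hD hu
    · intro i hi
      have h1 : i < t s := by omega
      simp only [dif_pos h1, dif_pos hi]
      have := hmono ⟨i, h1⟩ ⟨i + 1, hi⟩ rfl
      rw [inner_sub_left] at this
      linarith
    · intro i hi
      simp only [dif_pos hi]
      obtain ⟨z, hz, e⟩ := mem_image.mp (hmem ⟨i, hi⟩)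
      exact ⟨z, hS hz, e.symm⟩
    · intro τ hτ
      exact (T_good hh hMN (mem_filter.mp hτ).1).1
    · intro τ hτ
      obtain ⟨i, j, hij, hor⟩ := (mem_filter.mp hτ).2
      refine ⟨i, ?_, ?_⟩
      · rw [← hij]; exact j.2
      · have h1 : (i : ℕ) + 1 < t s := by rw [← hij]; exact j.2
        have h2 : (i : ℕ) < t s := i.2
        simp only [dif_pos h1, dif_pos h2]
        have h3 : (⟨(i : ℕ) + 1, h1⟩ : Fin (t s)) = j := Fin.ext hij.symm
        rw [h3]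
        exact hor
  calc ∑ τ ∈ T h D, τ.2.1 ≤ ∑ τ ∈ T h D, ∑ s : Fin k,
        (if IsEdge (v s) (f N τ.2.2) (f N (zr τ)) then τ.2.1 else 0) := by
        apply Finset.sum_le_sum
        intro τ hτ
        obtain ⟨s, hs⟩ := hex τ hτ
        have := Finset.single_le_sum (f := fun s : Fin k =>
          (if IsEdge (v s) (f N τ.2.2) (f N (zr τ)) then τ.2.1 else 0))
          (fun _ _ => Nat.zero_le _) (mem_univ s)
        simp only [if_pos hs] at this
        exact this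
    _ = ∑ s : Fin k, ∑ τ ∈ (T h D).filter (fun τ => IsEdge (v s) (f N τ.2.2) (f N (zr τ))),
        τ.2.1 := by
        rw [Finset.sum_comm]
        apply Finset.sum_congr rfl
        intro s _
        rw [Finset.sum_filter]
    _ ≤ ∑ _s : Fin k, 7 * (N * N) := Finset.sum_le_sum (fun s _ => hpath s)
    _ = k * (7 * (N * N)) := by
        rw [Finset.sum_const, card_univ, Fintype.card_fin, smul_eq_mul]

end Pool.Agent.J6H33.Mono
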