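import Pool.Agent.J6H33.Mono.Basic

set_option autoImplicit false

/-!
# A monotone path crosses a unit segment of a grid line at most four times inside the line
-/

namespace Pool.Agent.J6H33.Mono

open Pool.Agent.R143.MonoPath

/-- A target edge: direction `v`, multiplicity `k`, left end point `z`. -/
abbrev Edge := (ℕ × ℕ) × ℕ × (ℕ × ℕ)

/-- Right end point of a target edge. -/
def zr (τ : Edge) : ℕ × ℕ := (τ.2.2.1 + τ.2.1 * τ.1.1, τ.2.2.2 + τ.2.1 * τ.1.2)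

/-- Conditions on the target edges. -/
def Good (N D : ℕ) (τ : Edge) : Prop :=
  1 ≤ τ.1.1 ∧ 1 ≤ τ.1.2 ∧ τ.1.1 ≤ D ∧ τ.1.2 ≤ D ∧ Nat.Coprime τ.1.1 τ.1.2 ∧ 1 ≤ τ.2.1 ∧
    τ.2.2 ∈ Box N ∧ zr τ ∈ Box N

/-- The target edge covers the unit segment which starts at `z0`. -/
def Cov (τ : Edge) (z0 : ℕ × ℕ) : Prop :=
  ∃ j, j < τ.2.1 ∧ z0 = (τ.2.2.1 + j * τ.1.1, τ.2.2.2 + j * τ.1.2)

/-- The height in the direction `u`. -/
noncomputable def hh (N : ℕ) (u : Plane) (z : ℕ × ℕ) : ℝ := inner ℝ (f N z) u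

theorem hh_eq (N : ℕ) (u : Plane) (z : ℕ × ℕ) :
    hh N u z = z.1 * u 0 + z.2 * u 1 + e N z * (u 0 + ((N : ℝ) + 1) * u 1) := by
  unfold hh
  rw [inner_eq, f_zero, f_one]
  ring

theorem mid {a c ε P1 P2 E1 E2 n : ℝ} (hP1 : 1 ≤ P1) (hP1' : P1 ≤ n) (hP2 : 1 ≤ P2)
    (hP2' : P2 ≤ n) (hE1 : ε / 2 ≤ E1) (hE1' : E1 ≤ ε) (hE2 : ε / 2 ≤ E2) (hE2' : E2 ≤ ε)
    (hε : 0 < ε) (h1 : 0 ≤ P1 * a + c * E1) (h2 : P2 * a + c * E2 ≤ 0) :
    |a| ≤ |c| * ε ∧ |c| * ε ≤ 2 * n * |a| := by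
  have hn : 1 ≤ n := hP1.trans hP1'
  have hE1p : 0 < E1 := by linarith
  have hE2p : 0 < E2 := by linarith
  rcases le_total 0 a with ha | ha <;> rcases le_total 0 c with hc | hc
  · have a0 : a = 0 := by
      have : 0 ≤ c * E2 := mul_nonneg hc hE2p.le
      have : a ≤ P2 * a := by nlinarith
      linarith
    have c0 : c = 0 := by
      rw [a0, mul_zero, zero_add] at h2
      nlinarith
    rw [a0, c0]; simp
  · rw [abs_of_nonneg ha, abs_of_nonpos hc]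
    constructor
    · have : a ≤ P2 * a := by nlinarith
      nlinarith
    · have : P1 * a ≤ n * a := mul_le_mul_of_nonneg_right hP1' ha
      nlinarith
  · rw [abs_of_nonpos ha, abs_of_nonneg hc]
    constructor
    · have : -a ≤ P1 * -a := by nlinarith
      nlinarith
    · have : P2 * -a ≤ n * -a := mul_le_mul_of_nonneg_right hP2' (by linarith)
      nlinarith
  · have a0 : a = 0 := by
      have : c * E1 ≤ 0 := mul_nonpos_of_nonpos_of_nonneg hc hE1p.le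
      have : P1 * a ≤ a := by nlinarith
      linarith
    have c0 : c = 0 := by
      rw [a0, mul_zero, zero_add] at h1
      nlinarith
    rw [a0, c0]; simp

/-- A point to the right on the same line. -/
theorem shift {N : ℕ} {u : Plane} {v x y : ℕ × ℕ} {P : ℕ} (hv : 1 ≤ v.1) (hP : 1 ≤ P)
    (hy : y = (x.1 + P * v.1, x.2 + P * v.2)) (hyB : y ∈ Box N) :
    hh N u y - hh N u x = P * (v.1 * u 0 + v.2 * u 1) +
        (u 0 + ((N : ℝ) + 1) * u 1) * (e N y - e N x) ∧ P ≤ N ∧ rk N x < rk N y ∧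
      e N y / 2 ≤ e N y - e N x ∧ e N y - e N x ≤ e N y := by
  have hPN : P ≤ N := by
    have h1 := (mem_Box.mp hyB).1
    rw [hy] at h1
    simp only at h1
    nlinarith
  have hN : 1 ≤ N := hP.trans hPN
  have hrk : rk N x < rk N y := by
    rw [hy]
    unfold rk
    simp only
    have : 1 ≤ P * v.1 * N := by
      have h2 : 1 ≤ P * v.1 := Nat.one_le_iff_ne_zero.mpr (by positivity)
      nlinarith
    nlinarith
  refine ⟨?_, hPN, hrk, ?_, ?_⟩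
  · rw [hh_eq, hh_eq]
    have h1 : (y.1 : ℝ) = x.1 + P * v.1 := by rw [hy]; push_cast; ring
    have h2 : (y.2 : ℝ) = x.2 + P * v.2 := by rw [hy]; push_cast; ring
    rw [h1, h2]
    ring
  · have h1 := e_step hrk
    have h2 := (B_ge N).2.2.2
    have h3 := e_pos N x
    nlinarith
  · have h3 := e_pos N x
    linarith

theorem strict {t : ℕ} {H : ℕ → ℝ} (hstep : ∀ i, i + 1 < t → H i < H (i + 1)) {i j : ℕ}
    (hij : i < j) (hj : j < t) : H i < H j := by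
  induction j with
  | zero => omega
  | succ j ih =>
    rcases Nat.lt_succ_iff_lt_or_eq.mp hij with h | h
    · exact (ih h (by omega)).trans (hstep j hj)
    · subst h
      exact hstep _ hj

theorem mono {t : ℕ} {H : ℕ → ℝ} (hstep : ∀ i, i + 1 < t → H i < H (i + 1)) {i j : ℕ}
    (hij : i ≤ j) (hj : j < t) : H i ≤ H j := by
  rcases hij.eq_or_lt with h | h
  · rw [h]
  · exact (strict hstep h hj).le

/-- The edge `τ` is the step number `i` of the path. -/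
def StepAt (N t : ℕ) (w : ℕ → Plane) (τ : Edge) (i : ℕ) : Prop :=
  i + 1 < t ∧ ((w i = f N τ.2.2 ∧ w (i + 1) = f N (zr τ)) ∨
    (w i = f N (zr τ) ∧ w (i + 1) = f N τ.2.2))

theorem zl_lt_zr {N D : ℕ} {τ : Edge} (h : Good N D τ) : τ.2.2.1 < (zr τ).1 := by
  obtain ⟨h1, -, -, -, -, h6, -, -⟩ := h
  unfold zr
  simp only
  have : 1 ≤ τ.2.1 * τ.1.1 := Nat.one_le_iff_ne_zero.mpr (by positivity)
  omega

theorem step_inj {N D t : ℕ} {w : ℕ → Plane} {τ τ' : Edge} {i : ℕ} (h : Good N D τ)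
    (h' : Good N D τ') (hi : StepAt N t w τ i) (hi' : StepAt N t w τ' i) : τ = τ' := by
  have key : τ.2.2 = τ'.2.2 ∧ zr τ = zr τ' := by
    have b1 := h.2.2.2.2.2.2.1
    have b2 := h.2.2.2.2.2.2.2
    have b1' := h'.2.2.2.2.2.2.1
    have b2' := h'.2.2.2.2.2.2.2
    have l1 := zl_lt_zr h
    have l1' := zl_lt_zr h'
    obtain ⟨-, hi⟩ := hi
    obtain ⟨-, hi'⟩ := hi'
    rcases hi with ⟨p1, p2⟩ | ⟨p1, p2⟩ <;> rcases hi' with ⟨q1, q2⟩ | ⟨q1, q2⟩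
    · exact ⟨f_inj b1 b1' (p1.symm.trans q1), f_inj b2 b2' (p2.symm.trans q2)⟩
    · exfalso
      have e1 := f_inj b1 b2' (p1.symm.trans q1)
      have e2 := f_inj b2 b1' (p2.symm.trans q2)
      rw [e1, e2] at l1
      omega
    · exfalso
      have e1 := f_inj b2 b1' (p1.symm.trans q1)
      have e2 := f_inj b1 b2' (p2.symm.trans q2)
      rw [e1, e2] at l1
      omega
    · exact ⟨f_inj b1 b1' (p2.symm.trans q2), f_inj b2 b2' (p1.symm.trans q1)⟩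
  obtain ⟨k1, k2⟩ := key
  obtain ⟨⟨p, b⟩, k, z⟩ := τ
  obtain ⟨⟨p', b'⟩, k', z'⟩ := τ'
  simp only [Good, zr, Prod.mk.injEq] at *
  obtain ⟨g1, g2, g3, g4, g5, g6, -⟩ := h
  obtain ⟨g1', g2', g3', g4', g5', g6', -⟩ := h'
  subst k1
  have m1 : k * p = k' * p' := by omega
  have m2 : k * b = k' * b' := by omega
  have hk : k = k' := by
    have d1 : Nat.gcd (k * p) (k * b) = k := by rw [Nat.gcd_mul_left, g5, mul_one]
    have d2 : Nat.gcd (k' * p') (k' * b') = k' := by rw [Nat.gcd_mul_left, g5', mul_one]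
    rw [← d1, ← d2, m1, m2]
  subst hk
  exact ⟨⟨Nat.eq_of_mul_eq_mul_left g6 m1, Nat.eq_of_mul_eq_mul_left g6 m2⟩, rfl, rfl⟩

section Path

variable {N D t : ℕ} {u : Plane} {w : ℕ → Plane}

/-- Heights of end points of an earlier and of a later edge. -/
theorem ord (hstep : ∀ i, i + 1 < t → inner ℝ (w i) u < inner ℝ (w (i + 1)) u)
    {τ τ' : Edge} {i i' : ℕ} (hi : StepAt N t w τ i) (hi' : StepAt N t w τ' i') (hlt : i < i') :
    hh N u τ.2.2 ≤ hh N u τ'.2.2 ∧ hh N u τ.2.2 ≤ hh N u (zr τ') ∧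
      hh N u (zr τ) ≤ hh N u τ'.2.2 ∧ hh N u (zr τ) ≤ hh N u (zr τ') := by
  have hH : ∀ i, i + 1 < t → (fun i => inner ℝ (w i) u) i < (fun i => inner ℝ (w i) u) (i + 1) :=
    hstep
  obtain ⟨ht, hi⟩ := hi
  obtain ⟨ht', hi'⟩ := hi'
  have m1 : inner ℝ (w i) u ≤ inner ℝ (w i') u := mono hH hlt.le (by omega)
  have m2 : inner ℝ (w (i + 1)) u ≤ inner ℝ (w i') u := mono hH (by omega) (by omega)
  have m3 : inner ℝ (w i') u ≤ inner ℝ (w (i' + 1)) u := mono hH (by omega) (by omega)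
  unfold hh
  rcases hi with ⟨p1, p2⟩ | ⟨p1, p2⟩ <;> rcases hi' with ⟨q1, q2⟩ | ⟨q1, q2⟩ <;>
    rw [← p1, ← p2, ← q1, ← q2] <;> refine ⟨?_, ?_, ?_, ?_⟩ <;> linarith

/-- The two end points of an edge of the path have different heights. -/
theorem ends_ne (hstep : ∀ i, i + 1 < t → inner ℝ (w i) u < inner ℝ (w (i + 1)) u)
    {τ : Edge} {i : ℕ} (hi : StepAt N t w τ i) : hh N u (zr τ) - hh N u τ.2.2 ≠ 0 := by
  obtain ⟨ht, hi⟩ := hi
  have := hstep i ht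
  unfold hh
  rcases hi with ⟨p1, p2⟩ | ⟨p1, p2⟩
  · rw [← p1, ← p2]; intro h; linarith
  · rw [← p1, ← p2]; intro h; linarith

theorem cov_shift {v z0 : ℕ × ℕ} {τ τ' : Edge} (hv : τ.1 = v) (hv' : τ'.1 = v)
    (hc : Cov τ z0) (hc' : Cov τ' z0) :
    ∃ P, 1 ≤ P ∧ zr τ' = (τ.2.2.1 + P * v.1, τ.2.2.2 + P * v.2) := by
  obtain ⟨j, hj, hz⟩ := hc
  obtain ⟨j', hj', hz'⟩ := hc'
  rw [hv] at hz
  rw [hv'] at hz'
  have e1 : τ.2.2.1 + j * v.1 = τ'.2.2.1 + j' * v.1 := by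
    have := hz.symm.trans hz'
    exact (Prod.mk.inj this).1
  have e2 : τ.2.2.2 + j * v.2 = τ'.2.2.2 + j' * v.2 := by
    have := hz.symm.trans hz'
    exact (Prod.mk.inj this).2
  obtain ⟨m, hm⟩ : ∃ m, τ'.2.1 = j' + m := ⟨τ'.2.1 - j', by omega⟩
  refine ⟨j + m, by omega, ?_⟩
  unfold zr
  rw [hv', hm]
  refine Prod.ext ?_ ?_
  · simp only
    rw [add_mul, add_mul]
    omega
  · simp only
    rw [add_mul, add_mul]
    omega

/-- The estimate for an edge with an earlier and a later edge through the same unit segment. -/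
theorem middle (hstep : ∀ i, i + 1 < t → inner ℝ (w i) u < inner ℝ (w (i + 1)) u)
    {v z0 : ℕ × ℕ} {τ τ' τ'' : Edge} (g : Good N D τ) (g' : Good N D τ')
    (hv : τ.1 = v) (hv' : τ'.1 = v) (hv'' : τ''.1 = v) (hc : Cov τ z0) (hc' : Cov τ' z0)
    (hc'' : Cov τ'' z0) {i i' i'' : ℕ} (hi : StepAt N t w τ i) (hi' : StepAt N t w τ' i')
    (hi'' : StepAt N t w τ'' i'') (h1 : i < i') (h2 : i' < i'') :
    0 < |(v.1 : ℝ) * u 0 + v.2 * u 1| ∧
    |(v.1 : ℝ) * u 0 + v.2 * u 1| ≤ |u 0 + ((N : ℝ) + 1) * u 1| * e N (zr τ') ∧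
    |u 0 + ((N : ℝ) + 1) * u 1| * e N (zr τ') ≤ 2 * N * |(v.1 : ℝ) * u 0 + v.2 * u 1| := by
  have gv : 1 ≤ v.1 := by rw [← hv]; exact g.1
  have gB : zr τ' ∈ Box N := g'.2.2.2.2.2.2.2
  obtain ⟨P1, hP1, hz1⟩ := cov_shift hv hv' hc hc'
  obtain ⟨P2, hP2, hz2⟩ := cov_shift hv'' hv' hc'' hc'
  obtain ⟨a1, a2, -, a4, a5⟩ := shift (u := u) gv hP1 hz1 gB
  obtain ⟨b1, b2, -, b4, b5⟩ := shift (u := u) gv hP2 hz2 gB
  have o1 := (ord hstep hi hi' h1).2.1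
  have o2 := (ord hstep hi' hi'' h2).2.2.1
  have hε := e_pos N (zr τ')
  have hmid := mid (a := (v.1 : ℝ) * u 0 + v.2 * u 1) (c := u 0 + ((N : ℝ) + 1) * u 1)
    (ε := e N (zr τ')) (P1 := P1) (P2 := P2) (n := N) (by exact_mod_cast hP1)
    (by exact_mod_cast a2) (by exact_mod_cast hP2) (by exact_mod_cast b2) a4 a5 b4 b5 hε
    (by linarith) (by linarith)
  refine ⟨?_, hmid⟩
  by_contra hcon
  have h0 : |(v.1 : ℝ) * u 0 + v.2 * u 1| = 0 := le_antisymm (not_lt.mp hcon) (abs_nonneg _)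
  have hc0 : |u 0 + ((N : ℝ) + 1) * u 1| = 0 := by
    have := hmid.2
    rw [h0, mul_zero] at this
    by_contra hne
    have : 0 < |u 0 + ((N : ℝ) + 1) * u 1| := lt_of_le_of_ne (abs_nonneg _) (Ne.symm hne)
    have := mul_pos this hε
    linarith
  obtain ⟨P3, hP3, hz3⟩ := cov_shift hv' hv' hc' hc'
  obtain ⟨c1, -⟩ := shift (u := u) gv hP3 hz3 gB
  apply ends_ne hstep hi'
  rw [c1, abs_eq_zero.mp h0, abs_eq_zero.mp hc0]
  ring

/-- Right end points of such edges coincide. -/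
theorem middle_unique {v : ℕ × ℕ} {z1 z2 : ℕ × ℕ} (hz1 : z1 ∈ Box N) (hz2 : z2 ∈ Box N)
    (h1 : 0 < |(v.1 : ℝ) * u 0 + v.2 * u 1|)
    (h2 : |(v.1 : ℝ) * u 0 + v.2 * u 1| ≤ |u 0 + ((N : ℝ) + 1) * u 1| * e N z1)
    (h3 : |u 0 + ((N : ℝ) + 1) * u 1| * e N z1 ≤ 2 * N * |(v.1 : ℝ) * u 0 + v.2 * u 1|)
    (h4 : |(v.1 : ℝ) * u 0 + v.2 * u 1| ≤ |u 0 + ((N : ℝ) + 1) * u 1| * e N z2)
    (h5 : |u 0 + ((N : ℝ) + 1) * u 1| * e N z2 ≤ 2 * N * |(v.1 : ℝ) * u 0 + v.2 * u 1|) :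
    z1 = z2 := by
  by_contra hne
  have hr : rk N z1 ≠ rk N z2 := fun h => hne (rk_inj hz1 hz2 h)
  have hB := (B_ge N).2.2.1
  have hN : (0 : ℝ) ≤ N := Nat.cast_nonneg _
  have hc : 0 ≤ |u 0 + ((N : ℝ) + 1) * u 1| := abs_nonneg _
  have main : ∀ z z' : ℕ × ℕ, rk N z < rk N z' →
      |(v.1 : ℝ) * u 0 + v.2 * u 1| ≤ |u 0 + ((N : ℝ) + 1) * u 1| * e N z →
      |u 0 + ((N : ℝ) + 1) * u 1| * e N z' ≤ 2 * N * |(v.1 : ℝ) * u 0 + v.2 * u 1| → False := by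
    intro z z' hlt q1 q2
    have q3 := mul_le_mul_of_nonneg_left (e_step hlt) hc
    have q4 : B N * |(v.1 : ℝ) * u 0 + v.2 * u 1| ≤
        B N * (|u 0 + ((N : ℝ) + 1) * u 1| * e N z) :=
      mul_le_mul_of_nonneg_left q1 (B_pos N).le
    nlinarith
  rcases lt_or_gt_of_ne hr with h | h
  · exact main _ _ h h2 h5
  · exact main _ _ h h4 h3

/-- At most four edges of the path inside a line cover a given unit segment. -/
theorem cross_le (hstep : ∀ i, i + 1 < t → inner ℝ (w i) u < inner ℝ (w (i + 1)) u)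
    (v z0 : ℕ × ℕ) (Q : Finset Edge) (I : Edge → ℕ) (hg : ∀ τ ∈ Q, Good N D τ)
    (hv : ∀ τ ∈ Q, τ.1 = v) (hc : ∀ τ ∈ Q, Cov τ z0) (hI : ∀ τ ∈ Q, StepAt N t w τ (I τ)) :
    Q.card ≤ 4 := by
  classical
  by_contra hcon
  push Not at hcon
  have hinj : Set.InjOn I Q := by
    intro τ hτ τ' hτ' h
    exact step_inj (hg τ hτ) (hg τ' hτ') (hI τ hτ) (by rw [h]; exact hI τ' hτ')
  have hcard : (Q.image I).card = Q.card := Finset.card_image_of_injOn hinj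
  have hne : (Q.image I).Nonempty := by
    rw [← Finset.card_pos, hcard]; omega
  set m := (Q.image I).min' hne with hm
  set M := (Q.image I).max' hne with hM
  obtain ⟨τm, hτm, em⟩ := Finset.mem_image.mp ((Q.image I).min'_mem hne)
  obtain ⟨τM, hτM, eM⟩ := Finset.mem_image.mp ((Q.image I).max'_mem hne)
  set J := ((Q.image I).erase m).erase M with hJ
  have hJcard : 3 ≤ J.card := by
    have h1 := Finset.pred_card_le_card_erase (s := Q.image I) (a := m)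
    have h2 := Finset.pred_card_le_card_erase (s := (Q.image I).erase m) (a := M)
    rw [← hJ] at h2
    omega
  have hJlt : ∀ i ∈ J, m < i ∧ i < M := by
    intro i hi
    rw [hJ, Finset.mem_erase, Finset.mem_erase] at hi
    obtain ⟨h1, h2, h3⟩ := hi
    exact ⟨lt_of_le_of_ne (Finset.min'_le _ _ h3) (Ne.symm h2),
      lt_of_le_of_ne (Finset.le_max' _ _ h3) h1⟩
  have hJmem : ∀ i ∈ J, ∃ τ ∈ Q, I τ = i := by
    intro i hi
    rw [hJ, Finset.mem_erase, Finset.mem_erase] at hi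
    obtain ⟨τ, h1, h2⟩ := Finset.mem_image.mp hi.2.2
    exact ⟨τ, h1, h2⟩
  have hmid : ∀ τ ∈ Q, I τ ∈ J → 0 < |(v.1 : ℝ) * u 0 + v.2 * u 1| ∧
      |(v.1 : ℝ) * u 0 + v.2 * u 1| ≤ |u 0 + ((N : ℝ) + 1) * u 1| * e N (zr τ) ∧
      |u 0 + ((N : ℝ) + 1) * u 1| * e N (zr τ) ≤ 2 * N * |(v.1 : ℝ) * u 0 + v.2 * u 1| := by
    intro τ hτ hτJ
    have := hJlt _ hτJ
    exact middle hstep (hg _ hτm) (hg _ hτ) (hv _ hτm) (hv _ hτ) (hv _ hτM)
      (hc _ hτm) (hc _ hτ) (hc _ hτM) (hI _ hτm) (hI _ hτ) (hI _ hτM)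
      (by rw [em]; exact this.1) (by rw [eM]; exact this.2)
  obtain ⟨i0, hi0⟩ : J.Nonempty := by rw [← Finset.card_pos]; omega
  obtain ⟨τ0, hτ0, hIτ0⟩ := hJmem i0 hi0
  have m0 := hmid τ0 hτ0 (by rw [hIτ0]; exact hi0)
  have hsame : ∀ τ ∈ Q, I τ ∈ J → zr τ = zr τ0 := by
    intro τ hτ hτJ
    have m1 := hmid τ hτ hτJ
    exact middle_unique (hg _ hτ).2.2.2.2.2.2.2 (hg _ hτ0).2.2.2.2.2.2.2 m1.1 m1.2.1 m1.2.2
      m0.2.1 m0.2.2
  -- the position of the common end point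
  obtain ⟨π, hπt, hπ⟩ : ∃ π, π < t ∧ w π = f N (zr τ0) := by
    obtain ⟨ht, h⟩ := hI τ0 hτ0
    rcases h with ⟨-, h⟩ | ⟨h, -⟩
    · exact ⟨_, ht, h⟩
    · exact ⟨_, by omega, h⟩
  have hpos : ∀ i, i < t → w i = f N (zr τ0) → i = π := by
    intro i hi h
    have hH : ∀ i, i + 1 < t → (fun i => inner ℝ (w i) u) i <
      (fun i => inner ℝ (w i) u) (i + 1) := hstep
    rcases lt_trichotomy i π with h1 | h1 | h1
    · have h2 : inner ℝ (w i) u < inner ℝ (w π) u := strict hH h1 hπt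
      rw [h, hπ] at h2
      exact absurd h2 (lt_irrefl _)
    · exact h1
    · have h2 : inner ℝ (w π) u < inner ℝ (w i) u := strict hH h1 hi
      rw [h, hπ] at h2
      exact absurd h2 (lt_irrefl _)
  have hsub : J ⊆ {π, π - 1} := by
    intro i hi
    obtain ⟨τ, hτ, hIτ⟩ := hJmem i hi
    have h1 := hsame τ hτ (by rw [hIτ]; exact hi)
    obtain ⟨ht, h⟩ := hI τ hτ
    rw [hIτ, h1] at h
    rw [hIτ] at ht
    rw [Finset.mem_insert, Finset.mem_singleton]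
    rcases h with ⟨-, h⟩ | ⟨h, -⟩
    · right
      have := hpos (i + 1) ht h
      omega
    · left
      exact hpos i (by omega) h
  have := Finset.card_le_card hsub
  have h2 : ({π, π - 1} : Finset ℕ).card ≤ 2 := Finset.card_le_two
  omega

end Path

end Pool.Agent.J6H33.Mono
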