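import Pool.Agent.J6H33.Mono.Cross

set_option autoImplicit false

/-!
# The total multiplicity of the target edges of a monotone path
-/

namespace Pool.Agent.J6H33.Mono

open Pool.Agent.R143.MonoPath

section Path

variable {N D t : ℕ} {u : Plane} {w : ℕ → Plane}

/-- Two primitive directions which are both nearly perpendicular to `u` coincide. -/
theorem dir_unique {v v' : ℕ × ℕ} (hD : 4 * D ≤ N) (hv1' : 1 ≤ v'.1)
    (hD1 : v.1 ≤ D) (hD2 : v.2 ≤ D) (hD1' : v'.1 ≤ D) (hD2' : v'.2 ≤ D)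
    (hc : Nat.Coprime v.1 v.2) (hc' : Nat.Coprime v'.1 v'.2)
    (h : (N : ℝ) * |(v.1 : ℝ) * u 0 + v.2 * u 1| < ‖u‖)
    (h' : (N : ℝ) * |(v'.1 : ℝ) * u 0 + v'.2 * u 1| < ‖u‖) : v = v' := by
  -- the determinant vanishes
  have hdet : v.1 * v'.2 = v'.1 * v.2 := by
    by_contra hne
    have hne' : ((v.1 : ℤ) * v'.2 - v'.1 * v.2) ≠ 0 := by
      intro h0
      apply hne
      have : ((v.1 * v'.2 : ℕ) : ℤ) = ((v'.1 * v.2 : ℕ) : ℤ) := by push_cast; linarith
      exact_mod_cast this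
    have h1 : (1 : ℝ) ≤ |(v.1 : ℝ) * v'.2 - v'.1 * v.2| := by
      have := Int.one_le_abs hne'
      have h2 : ((1 : ℤ) : ℝ) ≤ ((|(v.1 : ℤ) * v'.2 - v'.1 * v.2| : ℤ) : ℝ) := by
        exact_mod_cast this
      rw [Int.cast_abs] at h2
      push_cast at h2
      exact h2
    set s := (v.1 : ℝ) * u 0 + v.2 * u 1 with hs
    set s' := (v'.1 : ℝ) * u 0 + v'.2 * u 1 with hs'
    have e0 : ((v.1 : ℝ) * v'.2 - v'.1 * v.2) * u 0 = v'.2 * s - v.2 * s' := by
      rw [hs, hs']; ring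
    have e1 : ((v.1 : ℝ) * v'.2 - v'.1 * v.2) * u 1 = v.1 * s' - v'.1 * s := by
      rw [hs, hs']; ring
    have b0 : |u 0| ≤ v'.2 * |s| + v.2 * |s'| := by
      have : |u 0| ≤ |((v.1 : ℝ) * v'.2 - v'.1 * v.2) * u 0| := by
        rw [abs_mul]; nlinarith [abs_nonneg (u 0)]
      refine this.trans ?_
      rw [e0]
      refine (abs_sub _ _).trans ?_
      rw [abs_mul, abs_mul, Nat.abs_cast, Nat.abs_cast]
    have b1 : |u 1| ≤ v.1 * |s'| + v'.1 * |s| := by
      have : |u 1| ≤ |((v.1 : ℝ) * v'.2 - v'.1 * v.2) * u 1| := by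
        rw [abs_mul]; nlinarith [abs_nonneg (u 1)]
      refine this.trans ?_
      rw [e1]
      refine (abs_sub _ _).trans ?_
      rw [abs_mul, abs_mul, Nat.abs_cast, Nat.abs_cast]
    have hnorm : ‖u‖ ≤ |u 0| + |u 1| := by
      rw [EuclideanSpace.norm_eq]
      apply Real.sqrt_le_iff.mpr
      refine ⟨by positivity, ?_⟩
      rw [Fin.sum_univ_two, Real.norm_eq_abs, Real.norm_eq_abs]
      nlinarith [abs_nonneg (u 0), abs_nonneg (u 1)]
    have c1 : (v.1 : ℝ) ≤ D := by exact_mod_cast hD1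
    have c2 : (v.2 : ℝ) ≤ D := by exact_mod_cast hD2
    have c3 : (v'.1 : ℝ) ≤ D := by exact_mod_cast hD1'
    have c4 : (v'.2 : ℝ) ≤ D := by exact_mod_cast hD2'
    have c5 : (4 : ℝ) * D ≤ N := by exact_mod_cast hD
    have p1 : (v'.2 : ℝ) * |s| ≤ D * |s| := mul_le_mul_of_nonneg_right c4 (abs_nonneg _)
    have p2 : (v.2 : ℝ) * |s'| ≤ D * |s'| := mul_le_mul_of_nonneg_right c2 (abs_nonneg _)
    have p3 : (v.1 : ℝ) * |s'| ≤ D * |s'| := mul_le_mul_of_nonneg_right c1 (abs_nonneg _)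
    have p4 : (v'.1 : ℝ) * |s| ≤ D * |s| := mul_le_mul_of_nonneg_right c3 (abs_nonneg _)
    have q1 : 4 * D * |s| ≤ N * |s| := mul_le_mul_of_nonneg_right c5 (abs_nonneg _)
    have q2 : 4 * D * |s'| ≤ N * |s'| := mul_le_mul_of_nonneg_right c5 (abs_nonneg _)
    linarith
  -- hence the directions are equal
  have d1 : v.1 ∣ v'.1 := by
    have : v.1 ∣ v'.1 * v.2 := ⟨v'.2, hdet.symm⟩
    exact hc.dvd_of_dvd_mul_right this
  have d2 : v'.1 ∣ v.1 := by
    have : v'.1 ∣ v.1 * v'.2 := ⟨v.2, hdet⟩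
    exact hc'.dvd_of_dvd_mul_right this
  have e1 : v.1 = v'.1 := Nat.dvd_antisymm d1 d2
  rw [e1] at hdet
  exact Prod.ext e1 (Nat.eq_of_mul_eq_mul_left (by omega) hdet).symm

/-- Unit segments covered by an edge. -/
theorem mult_le_card {τ : Edge} (h : Good N D τ) [DecidablePred (Cov τ)] :
    τ.2.1 ≤ ((Box N).filter (Cov τ)).card := by
  classical
  have h1 : (Finset.range τ.2.1).card ≤ ((Box N).filter (Cov τ)).card := by
    apply Finset.card_le_card_of_injOn (fun j => (τ.2.2.1 + j * τ.1.1, τ.2.2.2 + j * τ.1.2))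
    · intro j hj
      rw [Finset.coe_range, Set.mem_Iio] at hj
      rw [Finset.coe_filter, Set.mem_ofPred_eq]
      refine ⟨?_, j, hj, rfl⟩
      have hB := mem_Box.mp h.2.2.2.2.2.2.2
      unfold zr at hB
      simp only at hB
      rw [mem_Box]
      simp only
      have a1 : j * τ.1.1 ≤ τ.2.1 * τ.1.1 := Nat.mul_le_mul_right _ hj.le
      have a2 : j * τ.1.2 ≤ τ.2.1 * τ.1.2 := Nat.mul_le_mul_right _ hj.le
      constructor <;> omega
    · intro j _ j' _ hjj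
      have := (Prod.mk.inj hjj).1
      have h2 : j * τ.1.1 = j' * τ.1.1 := by omega
      exact Nat.eq_of_mul_eq_mul_right h.1 h2
  rwa [Finset.card_range] at h1

/-- Edges in one direction. -/
theorem sum_dir_le (hstep : ∀ i, i + 1 < t → inner ℝ (w i) u < inner ℝ (w (i + 1)) u)
    (v : ℕ × ℕ) (Q : Finset Edge) (I : Edge → ℕ) (hg : ∀ τ ∈ Q, Good N D τ)
    (hv : ∀ τ ∈ Q, τ.1 = v) (hI : ∀ τ ∈ Q, StepAt N t w τ (I τ)) :
    ∑ τ ∈ Q, τ.2.1 ≤ 4 * (N * N) := by
  classical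
  calc ∑ τ ∈ Q, τ.2.1 ≤ ∑ τ ∈ Q, ((Box N).filter (Cov τ)).card :=
        Finset.sum_le_sum (fun τ hτ => mult_le_card (hg τ hτ))
    _ = ∑ z ∈ Box N, (Q.filter (fun τ => Cov τ z)).card :=
        Finset.sum_card_bipartiteAbove_eq_sum_card_bipartiteBelow Cov
    _ ≤ ∑ _z ∈ Box N, 4 := by
        apply Finset.sum_le_sum
        intro z _
        apply cross_le hstep v z _ I
        · intro τ hτ; exact hg τ (Finset.mem_filter.mp hτ).1
        · intro τ hτ; exact hv τ (Finset.mem_filter.mp hτ).1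
        · intro τ hτ; exact (Finset.mem_filter.mp hτ).2
        · intro τ hτ; exact hI τ (Finset.mem_filter.mp hτ).1
    _ = 4 * (N * N) := by
        rw [Finset.sum_const, card_Box, smul_eq_mul]; ring

theorem abs_coord_le (u : Plane) : |u 0| ≤ ‖u‖ ∧ |u 1| ≤ ‖u‖ := by
  constructor
  · have := PiLp.norm_apply_le u 0
    simpa using this
  · have := PiLp.norm_apply_le u 1
    simpa using this

/-- Number of steps. -/
theorem t_le (hstep : ∀ i, i + 1 < t → inner ℝ (w i) u < inner ℝ (w (i + 1)) u)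
    (hmem : ∀ i, i < t → ∃ z ∈ Box N, w i = f N z) : t ≤ N * N := by
  classical
  have hH : ∀ i, i + 1 < t → (fun i => inner ℝ (w i) u) i < (fun i => inner ℝ (w i) u) (i + 1) :=
    hstep
  choose! g hg1 hg2 using hmem
  have : (Finset.range t).card ≤ (Box N).card := by
    apply Finset.card_le_card_of_injOn g
    · intro i hi
      exact hg1 i (by simpa using hi)
    · intro i hi j hj hij
      rw [Finset.coe_range, Set.mem_Iio] at hi hj
      have hw : w i = w j := by rw [hg2 i hi, hg2 j hj, hij]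
      rcases lt_trichotomy i j with h | h | h
      · have h2 : inner ℝ (w i) u < inner ℝ (w j) u := strict hH h hj
        rw [hw] at h2
        exact absurd h2 (lt_irrefl _)
      · exact h
      · have h2 : inner ℝ (w j) u < inner ℝ (w i) u := strict hH h hi
        rw [hw] at h2
        exact absurd h2 (lt_irrefl _)
  rwa [Finset.card_range, card_Box] at this

/-- Total height of a set of steps. -/
theorem sum_steps_le {H : ℕ → ℝ} (hstep : ∀ i, i + 1 < t → H i < H (i + 1)) (J : Finset ℕ)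
    (hJ : ∀ i ∈ J, i + 1 < t) {δ : ℝ} (hδ : 0 ≤ δ) (hd : ∀ i j, i < t → j < t → H j - H i ≤ δ) :
    ∑ i ∈ J, (H (i + 1) - H i) ≤ δ := by
  rcases Nat.eq_zero_or_pos t with h0 | hpos
  · have : J = ∅ := by
      rw [Finset.eq_empty_iff_forall_notMem]
      intro i hi
      have := hJ i hi
      omega
    rw [this, Finset.sum_empty]; exact hδ
  · have h1 : J ⊆ Finset.range (t - 1) := by
      intro i hi
      rw [Finset.mem_range]
      have := hJ i hi
      omega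
    calc ∑ i ∈ J, (H (i + 1) - H i) ≤ ∑ i ∈ Finset.range (t - 1), (H (i + 1) - H i) := by
          apply Finset.sum_le_sum_of_subset_of_nonneg h1
          intro i hi _
          rw [Finset.mem_range] at hi
          have := hstep i (by omega)
          linarith
      _ = H (t - 1) - H 0 := Finset.sum_range_sub _ _
      _ ≤ δ := hd 0 (t - 1) hpos (by omega)

/-- Edges in the directions which are not nearly perpendicular to `u`. -/
theorem sum_far_le (hN : 1 ≤ N) (hu : u ≠ 0)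
    (hstep : ∀ i, i + 1 < t → inner ℝ (w i) u < inner ℝ (w (i + 1)) u)
    (hmem : ∀ i, i < t → ∃ z ∈ Box N, w i = f N z)
    (Q : Finset Edge) (I : Edge → ℕ) (hg : ∀ τ ∈ Q, Good N D τ)
    (hI : ∀ τ ∈ Q, StepAt N t w τ (I τ))
    (hfar : ∀ τ ∈ Q, ‖u‖ ≤ (N : ℝ) * |(τ.1.1 : ℝ) * u 0 + τ.1.2 * u 1|) :
    ∑ τ ∈ Q, τ.2.1 ≤ 3 * (N * N) := by
  classical
  have hU : 0 < ‖u‖ := norm_pos_iff.mpr hu
  have hN' : (1 : ℝ) ≤ N := by exact_mod_cast hN
  set H : ℕ → ℝ := fun i => inner ℝ (w i) u with hHdef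
  have hH : ∀ i, i + 1 < t → H i < H (i + 1) := hstep
  have hinj : Set.InjOn I Q := by
    intro τ hτ τ' hτ' h
    exact step_inj (hg τ hτ) (hg τ' hτ') (hI τ hτ) (by rw [h]; exact hI τ' hτ')
  have ht := t_le hstep hmem
  -- number of edges
  have hQcard : (Q.card : ℝ) ≤ N * N := by
    have h1 : Q.card ≤ t := by
      rw [← Finset.card_image_of_injOn hinj, ← Finset.card_range t]
      apply Finset.card_le_card
      intro i hi
      obtain ⟨τ, hτ, rfl⟩ := Finset.mem_image.mp hi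
      rw [Finset.mem_range]
      have := (hI τ hτ).1
      omega
    exact_mod_cast h1.trans ht
  -- heights
  have hheight : ∑ τ ∈ Q, (H (I τ + 1) - H (I τ)) ≤ 2 * N * ‖u‖ := by
    rw [← Finset.sum_image (f := fun i => H (i + 1) - H i) (g := I) hinj]
    apply sum_steps_le hH
    · intro i hi
      obtain ⟨τ, hτ, rfl⟩ := Finset.mem_image.mp hi
      exact (hI τ hτ).1
    · positivity
    · intro i j hi hj
      obtain ⟨z, hz, ez⟩ := hmem i hi
      obtain ⟨z', hz', ez'⟩ := hmem j hj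
      have h1 : H j - H i = inner ℝ (w j - w i) u := by
        rw [hHdef]; simp only [inner_sub_left]
      rw [h1]
      refine (real_inner_le_norm _ _).trans ?_
      apply mul_le_mul_of_nonneg_right _ hU.le
      rw [← dist_eq_norm, ez, ez']
      exact dist_le hz' hz
  -- each edge
  have hedge : ∀ τ ∈ Q, (τ.2.1 : ℝ) * ‖u‖ ≤
      N * ((H (I τ + 1) - H (I τ)) + ‖u‖ / (N * N)) := by
    intro τ hτ
    have g := hg τ hτ
    have gB : zr τ ∈ Box N := g.2.2.2.2.2.2.2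
    obtain ⟨s1, -, -, s4, s5⟩ := shift (u := u) (v := τ.1) (x := τ.2.2) (y := zr τ) g.1
      g.2.2.2.2.2.1 rfl gB
    have hε := e_pos N (zr τ)
    have hc : |u 0 + ((N : ℝ) + 1) * u 1| ≤ (N + 2) * ‖u‖ := by
      refine (abs_add_le _ _).trans ?_
      rw [abs_mul, abs_of_nonneg (by positivity : (0 : ℝ) ≤ (N : ℝ) + 1)]
      have := abs_coord_le u
      nlinarith [this.1, this.2]
    have hce : |(u 0 + ((N : ℝ) + 1) * u 1) * (e N (zr τ) - e N τ.2.2)| ≤ ‖u‖ / (N * N) := by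
      rw [abs_mul, abs_of_nonneg (by linarith : (0 : ℝ) ≤ e N (zr τ) - e N τ.2.2)]
      have h1 := (small gB).2
      have h2 : |u 0 + ((N : ℝ) + 1) * u 1| * (e N (zr τ) - e N τ.2.2) ≤
          ((N + 2) * ‖u‖) * (1 / (64 * ((N : ℝ) + 2) ^ 3)) :=
        mul_le_mul hc (s5.trans h1) (by linarith) (by positivity)
      refine h2.trans ?_
      have h3 : ((N + 2) * ‖u‖) * (1 / (64 * ((N : ℝ) + 2) ^ 3)) =
          ‖u‖ * (1 / (64 * ((N : ℝ) + 2) ^ 2)) := by
        field_simp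
      rw [h3, div_eq_mul_one_div ‖u‖]
      apply mul_le_mul_of_nonneg_left _ hU.le
      apply one_div_le_one_div_of_le (by positivity)
      nlinarith
    have hstepH : |hh N u (zr τ) - hh N u τ.2.2| = H (I τ + 1) - H (I τ) := by
      obtain ⟨hlt, hor⟩ := hI τ hτ
      have := hH _ hlt
      rcases hor with ⟨p1, p2⟩ | ⟨p1, p2⟩
      · rw [hh, hh, ← p1, ← p2]
        exact abs_of_nonneg (by simp only [hHdef] at this ⊢; linarith)
      · rw [hh, hh, ← p1, ← p2]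
        rw [abs_sub_comm]
        exact abs_of_nonneg (by simp only [hHdef] at this ⊢; linarith)
    have hk : (τ.2.1 : ℝ) * |(τ.1.1 : ℝ) * u 0 + τ.1.2 * u 1| ≤
        (H (I τ + 1) - H (I τ)) + ‖u‖ / (N * N) := by
      have h1 : (τ.2.1 : ℝ) * |(τ.1.1 : ℝ) * u 0 + τ.1.2 * u 1| =
          |(τ.2.1 : ℝ) * ((τ.1.1 : ℝ) * u 0 + τ.1.2 * u 1)| := by
        rw [abs_mul, Nat.abs_cast]
      have h2 : (τ.2.1 : ℝ) * ((τ.1.1 : ℝ) * u 0 + τ.1.2 * u 1) =
          (hh N u (zr τ) - hh N u τ.2.2) -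
            (u 0 + ((N : ℝ) + 1) * u 1) * (e N (zr τ) - e N τ.2.2) := by
        rw [s1]; ring
      rw [h1, h2, ← hstepH]
      refine (abs_sub _ _).trans ?_
      linarith
    have hf := hfar τ hτ
    have hk0 : (0 : ℝ) ≤ τ.2.1 := Nat.cast_nonneg _
    calc (τ.2.1 : ℝ) * ‖u‖ ≤ τ.2.1 * ((N : ℝ) * |(τ.1.1 : ℝ) * u 0 + τ.1.2 * u 1|) :=
          mul_le_mul_of_nonneg_left hf hk0
      _ = N * ((τ.2.1 : ℝ) * |(τ.1.1 : ℝ) * u 0 + τ.1.2 * u 1|) := by ring
      _ ≤ _ := mul_le_mul_of_nonneg_left hk (by positivity)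
  have hsum : (∑ τ ∈ Q, (τ.2.1 : ℝ)) * ‖u‖ ≤ (3 * (N * N)) * ‖u‖ := by
    rw [Finset.sum_mul]
    calc ∑ τ ∈ Q, (τ.2.1 : ℝ) * ‖u‖ ≤
          ∑ τ ∈ Q, (N : ℝ) * ((H (I τ + 1) - H (I τ)) + ‖u‖ / (N * N)) :=
          Finset.sum_le_sum hedge
      _ = N * (∑ τ ∈ Q, (H (I τ + 1) - H (I τ)) + Q.card * (‖u‖ / (N * N))) := by
          rw [← Finset.mul_sum, Finset.sum_add_distrib, Finset.sum_const, nsmul_eq_mul]
      _ ≤ N * (2 * N * ‖u‖ + (N * N) * (‖u‖ / (N * N))) := by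
          apply mul_le_mul_of_nonneg_left _ (by positivity)
          apply add_le_add hheight
          exact mul_le_mul_of_nonneg_right hQcard (by positivity)
      _ = N * (2 * N * ‖u‖ + ‖u‖) := by
          rw [mul_div_cancel₀]; positivity
      _ ≤ (3 * (N * N)) * ‖u‖ := by
          have h9 : 0 ≤ ((N : ℝ) - 1) * N * ‖u‖ :=
            mul_nonneg (mul_nonneg (by linarith) (by linarith)) hU.le
          nlinarith
  have := le_of_mul_le_mul_right hsum hU
  exact_mod_cast this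

/-- **The total multiplicity of the target edges of a monotone path is at most `7 N²`.** -/
theorem path_sum_le (hN : 1 ≤ N) (hD : 4 * D ≤ N) (hu : u ≠ 0)
    (hstep : ∀ i, i + 1 < t → inner ℝ (w i) u < inner ℝ (w (i + 1)) u)
    (hmem : ∀ i, i < t → ∃ z ∈ Box N, w i = f N z)
    (Q : Finset Edge) (hg : ∀ τ ∈ Q, Good N D τ)
    (hI : ∀ τ ∈ Q, ∃ i, StepAt N t w τ i) :
    ∑ τ ∈ Q, τ.2.1 ≤ 7 * (N * N) := by
  classical
  choose! I hI using hI
  set Qf := Q.filter (fun τ => ‖u‖ ≤ (N : ℝ) * |(τ.1.1 : ℝ) * u 0 + τ.1.2 * u 1|) with hQf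
  set Qn := Q.filter (fun τ => ¬ ‖u‖ ≤ (N : ℝ) * |(τ.1.1 : ℝ) * u 0 + τ.1.2 * u 1|) with hQn
  have hsplit : ∑ τ ∈ Q, τ.2.1 = ∑ τ ∈ Qf, τ.2.1 + ∑ τ ∈ Qn, τ.2.1 :=
    (Finset.sum_filter_add_sum_filter_not Q _ _).symm
  have h1 : ∑ τ ∈ Qf, τ.2.1 ≤ 3 * (N * N) := by
    apply sum_far_le hN hu hstep hmem Qf I
    · intro τ hτ; exact hg τ (Finset.mem_filter.mp hτ).1
    · intro τ hτ; exact hI τ (Finset.mem_filter.mp hτ).1
    · intro τ hτ; exact (Finset.mem_filter.mp hτ).2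
  have h2 : ∑ τ ∈ Qn, τ.2.1 ≤ 4 * (N * N) := by
    rcases Qn.eq_empty_or_nonempty with h0 | ⟨τ0, hτ0⟩
    · rw [h0, Finset.sum_empty]; exact Nat.zero_le _
    · obtain ⟨a1, a2⟩ := Finset.mem_filter.mp hτ0
      apply sum_dir_le hstep τ0.1 Qn I
      · intro τ hτ; exact hg τ (Finset.mem_filter.mp hτ).1
      · intro τ hτ
        obtain ⟨b1, b2⟩ := Finset.mem_filter.mp hτ
        have ga := hg _ a1
        have gb := hg _ b1
        exact dir_unique hD ga.1 gb.2.2.1 gb.2.2.2.1 ga.2.2.1 ga.2.2.2.1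
          gb.2.2.2.2.1 ga.2.2.2.2.1 (not_le.mp b2) (not_le.mp a2)
      · intro τ hτ; exact hI τ (Finset.mem_filter.mp hτ).1
  omega

end Path

end Pool.Agent.J6H33.Mono
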